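import Mathlib

set_option autoImplicit false

namespace Pool.Agent.H11Z.Nice

open MeasureTheory Filter

/-- `R` is a set of nice recurrence, the limit superior being taken along the elements of `R` that
tend to infinity in the sense of the filter `l` (`l = atTop`: `n → +∞`; `l = cofinite`:
`|n| → ∞`): for every invertible measure preserving system, every measurable `A` and every `ε > 0`
the inequality `μ (A ∩ T ^ n A) ≥ μ A ^ 2 - ε` holds for `l`-frequently many `n ∈ R`. -/
def NiceRec (l : Filter ℤ) (R : Set ℤ) : Prop :=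
  ∀ (X : Type) [MeasurableSpace X] (μ : Measure X) [IsProbabilityMeasure μ] (T : Equiv.Perm X),
    Measurable T → Measurable T.symm → MeasurePreserving T μ μ →
    ∀ A : Set X, MeasurableSet A → ∀ ε : ℝ, 0 < ε →
      ∃ᶠ n in l, n ∈ R ∧ (μ A).toReal ^ 2 - ε ≤ (μ (A ∩ (T ^ n : Equiv.Perm X) '' A)).toReal

end Pool.Agent.H11Z.Nice
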