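import Pool.Agent.H11Z.Nice.Defs

set_option autoImplicit false

namespace Pool.Agent.H11Z.Nice

open MeasureTheory Filter

/-- `(m, c)` are the mean and the correlation sequence of a bounded function. -/
def Rz (m : ℝ) (c : ℤ → ℝ) : Prop :=
  ∃ (X : Type) (_ : MeasurableSpace X) (μ : Measure X) (_ : IsProbabilityMeasure μ)
    (S : ℤ → X → X) (f : X → ℝ) (B : ℝ), (∀ x, S 0 x = x) ∧ (∀ a b x, S (a + b) x = S a (S b x)) ∧
    (∀ n, MeasurePreserving (S n) μ μ) ∧ Measurable f ∧ (∀ x, |f x| ≤ B) ∧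
    ∫ x, f x ∂μ = m ∧ ∀ n, ∫ x, f x * f (S n x) ∂μ = c n

lemma integrable_of_bdd {X : Type} [MeasurableSpace X] {μ : Measure X} [IsProbabilityMeasure μ]
    {f : X → ℝ} (hf : Measurable f) {B : ℝ} (hB : ∀ x, |f x| ≤ B) : Integrable f μ :=
  Integrable.of_bound hf.aestronglyMeasurable B (Eventually.of_forall hB)

lemma corr_affine {X : Type} [MeasurableSpace X] {μ : Measure X} [IsProbabilityMeasure μ]
    {f : X → ℝ} (hf : Measurable f) {B : ℝ} (hB : ∀ x, |f x| ≤ B) {S : X → X}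
    (hS : MeasurePreserving S μ μ) (a b : ℝ) :
    ∫ x, (a + b * f x) * (a + b * f (S x)) ∂μ =
      a ^ 2 + 2 * a * b * ∫ x, f x ∂μ + b ^ 2 * ∫ x, f x * f (S x) ∂μ := by
  have hi : Integrable f μ := integrable_of_bdd hf hB
  have hfn : Measurable (fun x => f (S x)) := hf.comp hS.measurable
  have hi2 : Integrable (fun x => f (S x)) μ := integrable_of_bdd hfn (fun x => hB _)
  have hi3 : Integrable (fun x => f x * f (S x)) μ := by
    apply integrable_of_bdd (f := fun x => f x * f (S x)) (hf.mul hfn) (B := B * B)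
    intro x
    rw [abs_mul]
    exact mul_le_mul (hB _) (hB _) (abs_nonneg _) ((abs_nonneg _).trans (hB x))
  have hm2 : ∫ x, f (S x) ∂μ = ∫ x, f x ∂μ := by
    rw [← integral_map hS.measurable.aemeasurable hf.aestronglyMeasurable, hS.map_eq]
  have e : (fun x => (a + b * f x) * (a + b * f (S x))) =
      fun x => (a ^ 2 + a * b * f x) + (a * b * f (S x) + b ^ 2 * (f x * f (S x))) := by
    funext x; ring
  have j1 : Integrable (fun x => a ^ 2 + a * b * f x) μ := (integrable_const _).add (hi.const_mul _)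
  have j2 : Integrable (fun x => a * b * f (S x) + b ^ 2 * (f x * f (S x))) μ :=
    (hi2.const_mul _).add (hi3.const_mul _)
  rw [e, integral_add j1 j2, integral_add (integrable_const _) (hi.const_mul _),
    integral_add (hi2.const_mul _) (hi3.const_mul _), integral_const, integral_const_mul,
    integral_const_mul, integral_const_mul, hm2]
  simp
  ring

lemma Rz.congr {m m' : ℝ} {c c' : ℤ → ℝ} (h : Rz m c) (hm : m = m') (hc : ∀ n, c n = c' n) :
    Rz m' c' := by
  have : c = c' := funext hc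
  rw [← hm, ← this]; exact h

lemma Rz.one : Rz 1 (fun _ => 1) :=
  ⟨Unit, inferInstance, Measure.dirac (), inferInstance, fun _ x => x, fun _ => 1, 1,
    fun _ => rfl, fun _ _ _ => rfl, fun _ => MeasurePreserving.id _, measurable_const,
    fun _ => by simp, by simp, fun _ => by simp⟩

lemma Rz.bdd {m : ℝ} {c : ℤ → ℝ} (h : Rz m c) : ∃ M : ℝ, 0 < M ∧ ∀ n, |c n| ≤ M := by
  obtain ⟨X, _, μ, _, S, f, B, -, -, hS, hf, hB, -, hc⟩ := h
  refine ⟨B * B + 1, by nlinarith [mul_self_nonneg B], fun n => ?_⟩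
  rw [← hc n]
  have h1 : ∀ x, ‖f x * f (S n x)‖ ≤ B * B := by
    intro x
    rw [Real.norm_eq_abs, abs_mul]
    exact mul_le_mul (hB _) (hB _) (abs_nonneg _) ((abs_nonneg _).trans (hB x))
  have h2 := norm_integral_le_of_norm_le_const (μ := μ) (Eventually.of_forall h1)
  rw [Real.norm_eq_abs] at h2
  simp only [probReal_univ, mul_one] at h2
  linarith

lemma Rz.affine {m : ℝ} {c : ℤ → ℝ} (h : Rz m c) (a b : ℝ) :
    Rz (a + b * m) (fun n => a ^ 2 + 2 * a * b * m + b ^ 2 * c n) := by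
  obtain ⟨X, _, μ, _, S, f, B, h0, hadd, hS, hf, hB, hm, hc⟩ := h
  have hi : Integrable f μ := integrable_of_bdd hf hB
  refine ⟨X, inferInstance, μ, inferInstance, S, fun x => a + b * f x, |a| + |b| * B, h0, hadd, hS,
    by fun_prop, fun x => ?_, ?_, fun n => ?_⟩
  · calc |a + b * f x| ≤ |a| + |b * f x| := abs_add_le _ _
      _ ≤ |a| + |b| * B := by rw [abs_mul]; gcongr; exact hB x
  · rw [integral_add (integrable_const _) (hi.const_mul b), integral_const, integral_const_mul, hm]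
    simp
  · rw [corr_affine hf hB (hS n), hm, hc]

lemma Rz.mul {m m' : ℝ} {c c' : ℤ → ℝ} (h : Rz m c) (h' : Rz m' c') :
    Rz (m * m') (fun n => c n * c' n) := by
  obtain ⟨X, _, μ, _, S, f, B, h0, hadd, hS, hf, hB, hm, hc⟩ := h
  obtain ⟨Y, _, ν, _, S', g, B', h0', hadd', hS', hg, hB', hm', hc'⟩ := h'
  refine ⟨X × Y, inferInstance, μ.prod ν, inferInstance, fun n p => (S n p.1, S' n p.2),
    fun p => f p.1 * g p.2, B * B', fun p => by simp [h0, h0'],
    fun a b p => by simp [hadd, hadd'], fun n => (hS n).prod (hS' n), by fun_prop,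
    fun p => ?_, ?_, fun n => ?_⟩
  · rw [abs_mul]
    exact mul_le_mul (hB _) (hB' _) (abs_nonneg _) ((abs_nonneg _).trans (hB p.1))
  · rw [integral_prod_mul, hm, hm']
  · have e : (fun p : X × Y => f p.1 * g p.2 * (f (S n p.1) * g (S' n p.2))) =
        fun p : X × Y => (f p.1 * f (S n p.1)) * (g p.2 * g (S' n p.2)) := by
      funext p; ring
    show ∫ p : X × Y, f p.1 * g p.2 * (f (S n p.1) * g (S' n p.2)) ∂(μ.prod ν) = _
    rw [e, integral_prod_mul (fun x => f x * f (S n x)) (fun y => g y * g (S' n y)), hc, hc']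

lemma Rz.pow {c : ℤ → ℝ} (h : Rz 1 c) (K : ℕ) : Rz 1 (fun n => c n ^ K) := by
  induction K with
  | zero => exact Rz.one.congr rfl (fun n => by simp)
  | succ K ih => exact (ih.mul h).congr (by ring) (fun n => by ring)

lemma Rz.one_add {c : ℤ → ℝ} (h : Rz 0 c) {t : ℝ} (ht : 0 ≤ t) : Rz 1 (fun n => 1 + t * c n) :=
  (h.affine 1 (Real.sqrt t)).congr (by ring) (fun n => by rw [Real.sq_sqrt ht]; ring)

/-- failure of nice recurrence in terms of correlation sequences -/
def Bad (l : Filter ℤ) (C : Set ℤ) : Prop :=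
  ∃ (c : ℤ → ℝ) (ε : ℝ), 0 < ε ∧ Rz 0 c ∧ ∀ᶠ n in l, n ∈ C → c n ≤ -ε

lemma Bad.normal {l : Filter ℤ} {C : Set ℤ} (h : Bad l C) :
    ∃ d : ℤ → ℝ, Rz 1 d ∧ (∀ n, -(1 / 2) ≤ d n) ∧ ∀ᶠ n in l, n ∈ C → d n ≤ 0 := by
  obtain ⟨c, ε, hε, hc, hev⟩ := h
  obtain ⟨M₀, hM₀, hcM₀⟩ := hc.bdd
  set M := max M₀ ε with hMdef
  have hM : 0 < M := lt_max_of_lt_left hM₀
  have hcM : ∀ n, |c n| ≤ M := fun n => (hcM₀ n).trans (le_max_left _ _)
  have hεM : ε ≤ M := le_max_right _ _
  have hq0 : 0 ≤ 1 - ε / (2 * M) := by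
    have : ε / (2 * M) ≤ 1 := by rw [div_le_one (by positivity)]; linarith
    linarith
  have hq1 : 1 - ε / (2 * M) < 1 := by
    have : 0 < ε / (2 * M) := by positivity
    linarith
  obtain ⟨K, hK⟩ := exists_pow_lt_of_lt_one (show 0 < ε / (2 * M) by positivity) hq1
  refine ⟨fun n => (1 + (2 * M)⁻¹ * c n) ^ K * (1 + ε⁻¹ * c n), ?_, fun n => ?_, ?_⟩
  · exact (((hc.one_add (t := (2 * M)⁻¹) (by positivity)).pow K).mul
      (hc.one_add (t := ε⁻¹) (by positivity))).congr (by ring) (fun n => rfl)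
  · have h1 := abs_le.1 (hcM n)
    have h2 : 0 ≤ 1 + (2 * M)⁻¹ * c n := by
      have : -(1 / 2) ≤ (2 * M)⁻¹ * c n := by
        rw [inv_mul_eq_div, le_div_iff₀ (by positivity)]; linarith [h1.1]
      linarith
    rcases le_total (-ε) (c n) with h3 | h3
    · have h4 : 0 ≤ 1 + ε⁻¹ * c n := by
        have : -1 ≤ ε⁻¹ * c n := by
          rw [inv_mul_eq_div, le_div_iff₀ hε]; linarith
        linarith
      have := mul_nonneg (pow_nonneg h2 K) h4
      linarith
    · have h4 : 1 + (2 * M)⁻¹ * c n ≤ 1 - ε / (2 * M) := by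
        have : (2 * M)⁻¹ * c n ≤ -(ε / (2 * M)) := by
          rw [inv_mul_eq_div, ← neg_div]
          gcongr
        linarith
      have h5 : (1 + (2 * M)⁻¹ * c n) ^ K ≤ ε / (2 * M) :=
        (pow_le_pow_left₀ h2 h4 K).trans hK.le
      have h6 : -(M / ε) ≤ 1 + ε⁻¹ * c n := by
        have : -(M / ε) ≤ ε⁻¹ * c n := by
          rw [inv_mul_eq_div, ← neg_div]
          gcongr
          exact h1.1
        linarith
      have h7 : 0 ≤ (1 + (2 * M)⁻¹ * c n) ^ K := pow_nonneg h2 K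
      have h8 : ε / (2 * M) * (M / ε) = 1 / 2 := by field_simp
      have h9 : 0 ≤ M / ε := by positivity
      calc -(1 / 2 : ℝ) = -(ε / (2 * M) * (M / ε)) := by rw [h8]
        _ ≤ -((1 + (2 * M)⁻¹ * c n) ^ K * (M / ε)) := by
            apply neg_le_neg
            gcongr
        _ = (1 + (2 * M)⁻¹ * c n) ^ K * (-(M / ε)) := by ring
        _ ≤ _ := mul_le_mul_of_nonneg_left h6 h7
  · filter_upwards [hev] with n hn hnC
    have h3 := hn hnC
    have h1 := abs_le.1 (hcM n)
    have h2 : 0 ≤ 1 + (2 * M)⁻¹ * c n := by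
      have : -(1 / 2) ≤ (2 * M)⁻¹ * c n := by
        rw [inv_mul_eq_div, le_div_iff₀ (by positivity)]; linarith [h1.1]
      linarith
    have h4 : 1 + ε⁻¹ * c n ≤ 0 := by
      have : ε⁻¹ * c n ≤ -1 := by
        rw [inv_mul_eq_div, div_le_iff₀ hε]; linarith
      linarith
    exact mul_nonpos_of_nonneg_of_nonpos (pow_nonneg h2 K) h4

lemma Bad.union {l : Filter ℤ} {C D : Set ℤ} (h : Bad l C) (h' : Bad l D) : Bad l (C ∪ D) := by
  obtain ⟨d, hd, hd1, hd2⟩ := h.normal
  obtain ⟨e, he, he1, he2⟩ := h'.normal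
  refine ⟨fun n => d n * e n - 1, 3 / 4, by norm_num, ?_, ?_⟩
  · exact ((hd.mul he).affine (-1) 1).congr (by ring) (fun n => by ring)
  · filter_upwards [hd2, he2] with n h1 h2 hn
    have a1 := hd1 n
    have a2 := he1 n
    rcases hn with hn | hn
    · have := h1 hn
      nlinarith
    · have := h2 hn
      nlinarith

lemma Bad.empty (l : Filter ℤ) : Bad l ∅ :=
  ⟨fun _ => 0, 1, one_pos, (Rz.one.affine 0 0).congr (by ring) (fun n => by ring),
    Eventually.of_forall fun _ h => h.elim⟩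

lemma Bad.iUnion {l : Filter ℤ} (r : ℕ) (C : Fin r → Set ℤ) (h : ∀ i, Bad l (C i)) :
    Bad l (⋃ i, C i) := by
  induction r with
  | zero => rw [Set.iUnion_of_empty]; exact Bad.empty l
  | succ r ih =>
    have e : ⋃ i, C i = C 0 ∪ ⋃ i : Fin r, C i.succ := by
      ext n
      simp only [Set.mem_iUnion, Set.mem_union]
      exact Fin.exists_fin_succ
    rw [e]
    exact (h 0).union (ih _ fun i => h _)

section Conv

variable {X : Type} [MeasurableSpace X] {μ : Measure X}

lemma mp_zpow {T : Equiv.Perm X} (h1 : Measurable T) (h2 : Measurable T.symm)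
    (h3 : MeasurePreserving T μ μ) (n : ℤ) : MeasurePreserving (T ^ n : Equiv.Perm X) μ μ := by
  have h4 : MeasurePreserving T.symm μ μ :=
    MeasurePreserving.symm (⟨T, h1, h2⟩ : X ≃ᵐ X) h3
  induction n using Int.induction_on with
  | zero => rw [zpow_zero]; exact MeasurePreserving.id μ
  | succ n ih => rw [zpow_add_one, Equiv.Perm.coe_mul]; exact ih.comp h3
  | pred n ih => rw [zpow_sub_one, Equiv.Perm.coe_mul]; exact ih.comp h4

lemma meas_image {T : Equiv.Perm X} (h : ∀ n : ℤ, MeasurePreserving (T ^ n : Equiv.Perm X) μ μ)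
    {A : Set X} (hA : MeasurableSet A) (n : ℤ) :
    μ (A ∩ (T ^ n : Equiv.Perm X) '' A) = μ (A ∩ (T ^ n : Equiv.Perm X) ⁻¹' A) := by
  have e : ((T ^ n : Equiv.Perm X) '' A) = (T ^ (-n) : Equiv.Perm X) ⁻¹' A := by
    rw [Equiv.image_eq_preimage_symm, zpow_neg]; rfl
  have hm : MeasurableSet (A ∩ (T ^ n : Equiv.Perm X) '' A) := by
    rw [e]; exact hA.inter ((h (-n)).measurable hA)
  rw [← (h n).measure_preimage hm.nullMeasurableSet, Set.preimage_inter,
    Equiv.preimage_image, Set.inter_comm]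

end Conv

lemma bad_of_not_nice {l : Filter ℤ} {C : Set ℤ} (h : ¬ NiceRec l C) : Bad l C := by
  unfold NiceRec at h
  push Not at h
  obtain ⟨X, _, μ, _, T, h1, h2, h3, A, hA, ε, hε, hev⟩ := h
  have hT := mp_zpow h1 h2 h3
  have hR : Rz (μ A).toReal (fun n => (μ (A ∩ (T ^ n : Equiv.Perm X) '' A)).toReal) := by
    refine ⟨X, inferInstance, μ, inferInstance, fun n x => (T ^ n : Equiv.Perm X) x,
      A.indicator (fun _ => 1), 1, fun x => by simp, fun a b x => by
        simp only [zpow_add, Equiv.Perm.coe_mul, Function.comp], hT,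
      measurable_const.indicator hA, fun x => ?_, ?_, fun n => ?_⟩
    · by_cases hx : x ∈ A <;> simp [hx]
    · rw [integral_indicator_const _ hA]; simp [Measure.real]
    · have e : (fun x => A.indicator (fun _ => (1 : ℝ)) x *
          A.indicator (fun _ => (1 : ℝ)) ((T ^ n : Equiv.Perm X) x)) =
          (A ∩ (T ^ n : Equiv.Perm X) ⁻¹' A).indicator (fun _ => (1 : ℝ)) := by
        funext x
        by_cases hx : x ∈ A <;> by_cases hy : (T ^ n : Equiv.Perm X) x ∈ A <;>
          simp [Set.indicator, hx, hy]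
      show ∫ x, A.indicator (fun _ => (1 : ℝ)) x *
          A.indicator (fun _ => (1 : ℝ)) ((T ^ n : Equiv.Perm X) x) ∂μ =
          (μ (A ∩ (T ^ n : Equiv.Perm X) '' A)).toReal
      rw [e, integral_indicator_const _ (hA.inter ((hT n).measurable hA)), meas_image hT hA]
      simp [Measure.real]
  refine ⟨fun n => (μ (A ∩ (T ^ n : Equiv.Perm X) '' A)).toReal - (μ A).toReal ^ 2, ε, hε,
    (hR.affine (-(μ A).toReal) 1).congr (by ring) (fun n => by ring), ?_⟩
  filter_upwards [hev] with n hn hnC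
  have := hn hnC
  linarith

/-- uniform measure on the unit interval -/
noncomputable def U : Measure ℝ := volume.restrict (Set.Icc 0 1)

instance : IsProbabilityMeasure U := ⟨by simp [U]⟩

lemma U_Iic {a : ℝ} (h0 : 0 ≤ a) (h1 : a ≤ 1) : U (Set.Iic a) = ENNReal.ofReal a := by
  rw [U, Measure.restrict_apply measurableSet_Iic]
  have : Set.Iic a ∩ Set.Icc 0 1 = Set.Icc 0 a := by
    ext x
    simp only [Set.mem_inter_iff, Set.mem_Iic, Set.mem_Icc]
    constructor
    · rintro ⟨a1, a2, -⟩; exact ⟨a2, a1⟩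
    · rintro ⟨a1, a2⟩; exact ⟨a2, a1, a2.trans h1⟩
  rw [this, Real.volume_Icc, sub_zero]

lemma not_nice_of_bad {l : Filter ℤ} (hl : l ≤ cofinite) {C : Set ℤ} (h : Bad l C) :
    ¬ NiceRec l C := by
  intro hN
  obtain ⟨c, ε, hε, hc, hev⟩ := h
  obtain ⟨X, _, μ, _, S, g, B₀, h0, hadd, hS, hg, hB₀, hm, hcc⟩ := hc
  set B := max B₀ 1 with hBdef
  have hBpos : 0 < B := lt_max_of_lt_right one_pos
  have hB : ∀ x, |g x| ≤ B := fun x => (hB₀ x).trans (le_max_left _ _)
  set f : X → ℝ := fun x => 1 / 2 + (2 * B)⁻¹ * g x with hf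
  have hfm : Measurable f := by rw [hf]; fun_prop
  have hf01 : ∀ x, 0 ≤ f x ∧ f x ≤ 1 := by
    intro x
    have h1 := abs_le.1 (hB x)
    have h2 : -(1 / 2) ≤ (2 * B)⁻¹ * g x := by
      rw [inv_mul_eq_div, le_div_iff₀ (by positivity)]; linarith [h1.1]
    have h3 : (2 * B)⁻¹ * g x ≤ 1 / 2 := by
      rw [inv_mul_eq_div, div_le_iff₀ (by positivity)]; linarith [h1.2]
    constructor <;> simp only [hf] <;> linarith
  have hfb : ∀ x, |f x| ≤ 1 := fun x => by
    rw [abs_le]; constructor <;> linarith [(hf01 x).1, (hf01 x).2]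
  have hgi : Integrable g μ := integrable_of_bdd hg hB
  have hfmean : ∫ x, f x ∂μ = 1 / 2 := by
    rw [hf, integral_add (integrable_const _) (hgi.const_mul _), integral_const,
      integral_const_mul, hm]
    simp
  have hfc : ∀ n, ∫ x, f x * f (S n x) ∂μ = 1 / 4 + ((2 * B)⁻¹) ^ 2 * c n := by
    intro n
    have := corr_affine hg hB (hS n) (1 / 2) (2 * B)⁻¹
    rw [hm, hcc] at this
    simp only [hf]
    rw [this]
    ring
  -- the extended system
  let ν : Measure (ℤ → ℝ) := Measure.infinitePi (fun _ : ℤ => U)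
  let S' : ℤ → X × (ℤ → ℝ) → X × (ℤ → ℝ) := fun n p => (S n p.1, fun i => p.2 (i + n))
  have hsh : ∀ n : ℤ, MeasurePreserving (fun (ω : ℤ → ℝ) (i : ℤ) => ω (i + n)) ν ν := by
    intro n
    refine ⟨by fun_prop, ?_⟩
    exact Measure.map_infinitePi_infinitePi_of_inj (P := fun _ : ℤ => U) (f := fun i => i + n)
      (add_left_injective n)
  have hS' : ∀ n, MeasurePreserving (S' n) (μ.prod ν) (μ.prod ν) := fun n => (hS n).prod (hsh n)
  have hadd' : ∀ a b p, S' (a + b) p = S' a (S' b p) := by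
    intro a b p
    simp only [S', hadd, add_assoc]
  have h0' : ∀ p, S' 0 p = p := by
    intro p
    simp only [S', h0, add_zero]
  let T : Equiv.Perm (X × (ℤ → ℝ)) :=
    ⟨S' 1, S' (-1), fun p => by rw [← hadd']; simp [h0'], fun p => by rw [← hadd']; simp [h0']⟩
  have hT : ∀ (n : ℤ) p, (T ^ n : Equiv.Perm _) p = S' n p := by
    intro n
    induction n using Int.induction_on with
    | zero => intro p; rw [zpow_zero, h0']; rfl
    | succ n ih => intro p; rw [zpow_add_one, Equiv.Perm.mul_apply, ih, hadd']; rfl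
    | pred n ih =>
      intro p
      rw [zpow_sub_one, Equiv.Perm.mul_apply, ih, sub_eq_add_neg, hadd']; rfl
  have hTm : ∀ n : ℤ, MeasurePreserving (T ^ n : Equiv.Perm _) (μ.prod ν) (μ.prod ν) := by
    intro n
    have : ((T ^ n : Equiv.Perm _) : _ → _) = S' n := funext (hT n)
    rw [this]; exact hS' n
  let A : Set (X × (ℤ → ℝ)) := {p | p.2 0 ≤ f p.1}
  have hA : MeasurableSet A := measurableSet_le (by fun_prop) (by fun_prop)
  have hAm : ((μ.prod ν) A).toReal = 1 / 2 := by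
    rw [Measure.prod_apply hA, ← hfmean,
      integral_eq_lintegral_of_nonneg_ae (Eventually.of_forall fun x => (hf01 x).1)
        hfm.aestronglyMeasurable]
    congr 1
    apply lintegral_congr
    intro x
    have e : Prod.mk x ⁻¹' A = (fun ω : ℤ → ℝ => ω 0) ⁻¹' Set.Iic (f x) := rfl
    rw [e, ← Measure.map_apply (by fun_prop) measurableSet_Iic, Measure.infinitePi_map_eval,
      U_Iic (hf01 x).1 (hf01 x).2]
  have hAn : ∀ n : ℤ, n ≠ 0 → ((μ.prod ν) (A ∩ (T ^ n : Equiv.Perm _) '' A)).toReal =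
      1 / 4 + ((2 * B)⁻¹) ^ 2 * c n := by
    intro n hn
    have hfn : Measurable (fun x => f (S n x)) := hfm.comp (hS n).measurable
    rw [meas_image hTm hA, Measure.prod_apply (hA.inter ((hTm n).measurable hA)), ← hfc,
      integral_eq_lintegral_of_nonneg_ae
        (Eventually.of_forall fun x => mul_nonneg (hf01 x).1 (hf01 _).1)
        (hfm.mul hfn).aestronglyMeasurable]
    congr 1
    apply lintegral_congr
    intro x
    have e : Prod.mk x ⁻¹' (A ∩ (T ^ n : Equiv.Perm _) ⁻¹' A) =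
        (fun ω : ℤ → ℝ => (ω 0, ω n)) ⁻¹' (Set.Iic (f x) ×ˢ Set.Iic (f (S n x))) := by
      ext ω
      simp only [Set.mem_preimage, Set.mem_inter_iff, hT, Set.mem_prod, Set.mem_Iic, A, S',
        Set.mem_ofPred_eq, zero_add]
    rw [e, ← Measure.map_apply (by fun_prop) (measurableSet_Iic.prod measurableSet_Iic),
      Measure.infinitePi_map_eval_prod hn.symm, Measure.prod_prod, U_Iic (hf01 x).1 (hf01 x).2,
      U_Iic (hf01 _).1 (hf01 _).2, ENNReal.ofReal_mul (hf01 x).1]
  have hfreq := hN (X × (ℤ → ℝ)) (μ.prod ν) T (hS' 1).measurable (hS' (-1)).measurable (hS' 1)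
    A hA (((2 * B)⁻¹) ^ 2 * ε / 2) (by positivity)
  have hne : ∀ᶠ n in l, n ≠ (0 : ℤ) := hl (Set.finite_singleton (0 : ℤ)).compl_mem_cofinite
  obtain ⟨n, ⟨hnC, hn1⟩, hn2, hn3⟩ := (hfreq.and_eventually (hev.and hne)).exists
  rw [hAm, hAn n hn3] at hn1
  have h4 := hn2 hnC
  have h5 : 0 < ((2 * B)⁻¹) ^ 2 := by positivity
  nlinarith

theorem main (l : Filter ℤ) (hl : l ≤ cofinite) (r : ℕ) (C : Fin r → Set ℤ)
    (h : NiceRec l (⋃ i, C i)) : ∃ i, NiceRec l (C i) := by
  by_contra hcon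
  push Not at hcon
  exact not_nice_of_bad hl (Bad.iUnion r C fun i => bad_of_not_nice (hcon i)) h

end Pool.Agent.H11Z.Nice
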